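import Mathlib

/-!
# Finitely generated C*-subalgebras and corners

Let `B` be a simple topological star algebra and `p ≠ 0`.  If `p B p` is contained in a finitely
generated closed star subalgebra, then `B` is finitely generated.  If `A` is not finitely generated,
then the matrix algebras over `A` are not finitely generated.
-/

namespace Pool.Agent.U517.FG

open Set

section Ring

variable {B : Type*} [Ring B]

/-- the ideal generated by `p`, as an additive group -/
def idl (p : B) : AddSubgroup B := AddSubgroup.closure {x | ∃ a c, x = a * p * c}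

lemma idl_mul_left (p x y : B) (hy : y ∈ idl p) : x * y ∈ idl p := by
  unfold idl at hy ⊢
  induction hy using AddSubgroup.closure_induction with
  | mem y hy =>
    obtain ⟨a, c, rfl⟩ := hy
    exact AddSubgroup.subset_closure ⟨x * a, c, by noncomm_ring⟩
  | zero => rw [mul_zero]; exact AddSubgroup.zero_mem _
  | add y z _ _ h1 h2 => rw [mul_add]; exact AddSubgroup.add_mem _ h1 h2
  | neg y _ h => rw [mul_neg]; exact AddSubgroup.neg_mem _ h

lemma idl_mul_right (p x y : B) (hx : x ∈ idl p) : x * y ∈ idl p := by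
  unfold idl at hx ⊢
  induction hx using AddSubgroup.closure_induction with
  | mem x hx =>
    obtain ⟨a, c, rfl⟩ := hx
    exact AddSubgroup.subset_closure ⟨a, c * y, by noncomm_ring⟩
  | zero => rw [zero_mul]; exact AddSubgroup.zero_mem _
  | add y z _ _ h1 h2 => rw [add_mul]; exact AddSubgroup.add_mem _ h1 h2
  | neg y _ h => rw [neg_mul]; exact AddSubgroup.neg_mem _ h

lemma one_mem_idl [IsSimpleRing B] {p : B} (hp : p ≠ 0) : (1 : B) ∈ idl p := by
  let I : TwoSidedIdeal B := TwoSidedIdeal.mk' (idl p : Set B) (idl p).zero_mem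
    (fun hx hy => (idl p).add_mem hx hy) (fun hx => (idl p).neg_mem hx)
    (fun {x y} hy => idl_mul_left p x y hy) (fun {x y} hx => idl_mul_right p x y hx)
  have hpI : p ∈ I := by
    rw [TwoSidedIdeal.mem_mk']
    exact AddSubgroup.subset_closure ⟨1, 1, by simp⟩
  have h := IsSimpleRing.one_mem_of_ne_zero_mem I hp hpI
  rw [TwoSidedIdeal.mem_mk'] at h
  exact h

end Ring

section Star

variable {B : Type*} [Ring B] [StarRing B] [Algebra ℂ B] [StarModule ℂ B]

lemma exists_right (p : B) {x : B} (hx : x ∈ idl p) : ∃ G : Set B, G.Finite ∧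
    ∀ C : StarSubalgebra ℂ B, G ⊆ C → (∀ b, p * b * p ∈ C) → ∀ b, p * b * x ∈ C := by
  unfold idl at hx
  induction hx using AddSubgroup.closure_induction with
  | mem x hx =>
    obtain ⟨a, c, rfl⟩ := hx
    refine ⟨{c}, finite_singleton c, fun C hG hC b => ?_⟩
    have h1 := C.mul_mem (hC (b * a)) (hG (mem_singleton c))
    have e : p * b * (a * p * c) = p * (b * a) * p * c := by noncomm_ring
    rw [e]; exact h1
  | zero => exact ⟨∅, finite_empty, fun C _ _ b => by rw [mul_zero]; exact C.zero_mem⟩
  | add y z _ _ h1 h2 =>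
    obtain ⟨G1, hf1, hG1⟩ := h1
    obtain ⟨G2, hf2, hG2⟩ := h2
    refine ⟨G1 ∪ G2, hf1.union hf2, fun C hG hC b => ?_⟩
    rw [mul_add]
    exact C.add_mem (hG1 C (subset_union_left.trans hG) hC b)
      (hG2 C (subset_union_right.trans hG) hC b)
  | neg y _ h =>
    obtain ⟨G1, hf1, hG1⟩ := h
    refine ⟨G1, hf1, fun C hG hC b => ?_⟩
    rw [mul_neg]
    exact neg_mem (hG1 C hG hC b)

lemma exists_left (p : B) {x : B} (hx : x ∈ idl p) : ∃ G : Set B, G.Finite ∧
    ∀ C : StarSubalgebra ℂ B, G ⊆ C → (∀ b, p * b ∈ C) → ∀ b, x * b ∈ C := by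
  unfold idl at hx
  induction hx using AddSubgroup.closure_induction with
  | mem x hx =>
    obtain ⟨a, c, rfl⟩ := hx
    refine ⟨{a}, finite_singleton a, fun C hG hC b => ?_⟩
    have h1 := C.mul_mem (hG (mem_singleton a)) (hC (c * b))
    have e : a * p * c * b = a * (p * (c * b)) := by noncomm_ring
    rw [e]; exact h1
  | zero => exact ⟨∅, finite_empty, fun C _ _ b => by rw [zero_mul]; exact C.zero_mem⟩
  | add y z _ _ h1 h2 =>
    obtain ⟨G1, hf1, hG1⟩ := h1
    obtain ⟨G2, hf2, hG2⟩ := h2
    refine ⟨G1 ∪ G2, hf1.union hf2, fun C hG hC b => ?_⟩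
    rw [add_mul]
    exact C.add_mem (hG1 C (subset_union_left.trans hG) hC b)
      (hG2 C (subset_union_right.trans hG) hC b)
  | neg y _ h =>
    obtain ⟨G1, hf1, hG1⟩ := h
    refine ⟨G1, hf1, fun C hG hC b => ?_⟩
    rw [neg_mul]
    exact neg_mem (hG1 C hG hC b)

/-- In a simple algebra, finitely many elements together with `p B p` generate `B`, if `p ≠ 0`. -/
theorem exists_finite_top [IsSimpleRing B] {p : B} (hp : p ≠ 0) : ∃ G : Set B, G.Finite ∧
    ∀ C : StarSubalgebra ℂ B, G ⊆ C → (∀ b, p * b * p ∈ C) → C = ⊤ := by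
  obtain ⟨G1, hf1, hG1⟩ := exists_right p (one_mem_idl hp)
  obtain ⟨G2, hf2, hG2⟩ := exists_left p (one_mem_idl hp)
  refine ⟨G1 ∪ G2, hf1.union hf2, fun C hG hC => ?_⟩
  have h1 : ∀ b, p * b ∈ C := fun b => by
    have := hG1 C (subset_union_left.trans hG) hC b
    rwa [mul_one] at this
  have h2 : ∀ b, b ∈ C := fun b => by
    have := hG2 C (subset_union_right.trans hG) h1 b
    rwa [one_mul] at this
  exact eq_top_iff.2 fun b _ => h2 b

variable [TopologicalSpace B] [IsTopologicalSemiring B] [ContinuousStar B]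

/-- If no finite set generates the simple algebra `B`, then no finitely generated closed star
subalgebra contains `p B p`, for any `p ≠ 0`. -/
theorem corner [IsSimpleRing B]
    (h : ∀ F : Set B, F.Finite → (StarAlgebra.adjoin ℂ F).topologicalClosure ≠ ⊤)
    {F : Set B} (hF : F.Finite) {p : B} (hp : p ≠ 0) :
    ∃ b, p * b * p ∉ (StarAlgebra.adjoin ℂ F).topologicalClosure := by
  by_contra hcon
  push Not at hcon
  obtain ⟨G, hGf, hG⟩ := exists_finite_top (B := B) hp
  refine h (F ∪ G) (hF.union hGf) (hG _ ?_ fun b => ?_)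
  · exact (subset_union_right.trans (StarAlgebra.subset_adjoin ℂ (F ∪ G))).trans
      (StarSubalgebra.le_topologicalClosure _)
  · exact StarSubalgebra.topologicalClosure_mono
      (StarAlgebra.adjoin_mono subset_union_left) (hcon b)

end Star

section Matrix

variable {A : Type*} [Ring A] [StarRing A] [Algebra ℂ A] [StarModule ℂ A]
  [TopologicalSpace A] [IsTopologicalSemiring A] [ContinuousStar A]

/-- If no finite set generates `A`, then no finite set generates a matrix algebra over `A`. -/
theorem matrix (h : ∀ F : Set A, F.Finite → (StarAlgebra.adjoin ℂ F).topologicalClosure ≠ ⊤)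
    {n : ℕ} (hn : n ≠ 0) {F : Set (Matrix (Fin n) (Fin n) A)} (hF : F.Finite) :
    (StarAlgebra.adjoin ℂ F).topologicalClosure ≠ ⊤ := by
  classical
  intro htop
  set E : Set A := ⋃ m ∈ F, range fun q : Fin n × Fin n => m q.1 q.2 with hE
  have hEf : E.Finite := hF.biUnion fun m _ => finite_range _
  refine h E hEf ?_
  set S := (StarAlgebra.adjoin ℂ E).topologicalClosure with hS
  have hcl : IsClosed (S : Set A) := StarSubalgebra.isClosed_topologicalClosure _
  have hmem : ∀ m ∈ F, ∀ i j, m i j ∈ S := by
    intro m hm i j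
    refine StarSubalgebra.le_topologicalClosure _ (StarAlgebra.subset_adjoin ℂ E ?_)
    exact mem_biUnion hm ⟨(i, j), rfl⟩
  have hadj : ∀ m ∈ StarAlgebra.adjoin ℂ F, ∀ i j, m i j ∈ S := by
    intro m hm
    induction hm using StarAlgebra.adjoin_induction with
    | mem x hx => exact hmem x hx
    | algebraMap r =>
      intro i j
      rw [Matrix.algebraMap_matrix_apply]
      split_ifs
      · exact S.algebraMap_mem r
      · exact S.zero_mem
    | add x y _ _ hx hy => intro i j; exact S.add_mem (hx i j) (hy i j)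
    | mul x y _ _ hx hy =>
      intro i j
      rw [Matrix.mul_apply]
      exact sum_mem fun k _ => S.mul_mem (hx i k) (hy k j)
    | star x _ hx => intro i j; exact star_mem (hx j i)
  have hclos : ∀ m ∈ (StarAlgebra.adjoin ℂ F).topologicalClosure, ∀ i j, m i j ∈ S := by
    have hC : IsClosed {m : Matrix (Fin n) (Fin n) A | ∀ i j, m i j ∈ S} := by
      simp only [ofPred_forall]
      refine isClosed_iInter fun i => isClosed_iInter fun j => ?_
      exact hcl.preimage (continuous_id.matrix_elem i j)
    intro m hm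
    rw [← SetLike.mem_coe, StarSubalgebra.topologicalClosure_coe] at hm
    exact (closure_minimal (fun m hm => hadj m hm) hC) hm
  refine eq_top_iff.2 fun a _ => ?_
  have i : Fin n := ⟨0, Nat.pos_of_ne_zero hn⟩
  have hm : (Matrix.of fun _ _ => a : Matrix (Fin n) (Fin n) A) ∈
      (StarAlgebra.adjoin ℂ F).topologicalClosure := by rw [htop]; trivial
  exact hclos _ hm i i

/-- If no finite set generates the simple algebra `A`, then no finitely generated closed star
subalgebra of a matrix algebra over `A` contains `p M_n(A) p`, for any `p ≠ 0`. -/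
theorem matrix_corner [IsSimpleRing A]
    (h : ∀ F : Set A, F.Finite → (StarAlgebra.adjoin ℂ F).topologicalClosure ≠ ⊤)
    (n : ℕ) (F : Set (Matrix (Fin n) (Fin n) A)) (hF : F.Finite)
    (p : Matrix (Fin n) (Fin n) A) (hp : p ≠ 0) :
    ∃ b, p * b * p ∉ (StarAlgebra.adjoin ℂ F).topologicalClosure := by
  have hn : n ≠ 0 := by
    rintro rfl
    exact hp (Subsingleton.elim _ _)
  have : Nonempty (Fin n) := ⟨⟨0, Nat.pos_of_ne_zero hn⟩⟩
  exact corner (fun F hF => matrix h hn hF) hF hp

end Matrix

end Pool.Agent.U517.FG
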